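import Pool.Agent.V11121.Conn

/-!
# Identification distance does not bound contraction distance

The class is that of the graphs without two disjoint cycles (no minor `2 K_3`). The graphs are two
friendship graphs with `n` triangles each, whose centres are joined by a path of length `n`.
Identifying the two centres gives a graph of the class; but less than `n` contractions neither merge the
centres nor destroy all the triangles at one of them.
-/

set_option autoImplicit false

namespace Pool.Agent.Results.MP_4c2ece_co.IdVersusContraction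

open SimpleGraph Pool.Agent.V11121

/-- `H` is a minor of `G`: there are pairwise disjoint connected branch sets such that each edge of
`H` is realised by an edge of `G` between the branch sets. -/
def IsMinor {W V : Type} (H : SimpleGraph W) (G : SimpleGraph V) : Prop :=
  ∃ B : W → Set V, (∀ i, (G.induce (B i)).Connected) ∧
    (∀ i j, i ≠ j → Disjoint (B i) (B j)) ∧ ∀ i j, H.Adj i j → ∃ a ∈ B i, ∃ b ∈ B j, G.Adj a b

/-- finite simple graphs. -/
structure FG where
  V : Type
  fin : Finite V
  G : SimpleGraph V

/-- minor-closed classes (closed under isomorphism and minors). -/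
def MinorClosed (C : FG → Prop) : Prop := ∀ G H : FG, C G → IsMinor H.G G.G → C H

/-- `f` maps the vertices of `G` onto the vertices of `H`, and two different vertices of `H` are
adjacent exactly if some edge of `G` joins their fibres: `H` arises from `G` by identifying each
fibre of `f` to one vertex. -/
def QuotMap {V W : Type} (G : SimpleGraph V) (H : SimpleGraph W) (f : V → W) : Prop :=
  Function.Surjective f ∧ ∀ x y, H.Adj x y ↔ x ≠ y ∧ ∃ a b, f a = x ∧ f b = y ∧ G.Adj a b

/-- `G` admits a `k`-identification to `C`: identifying the parts of a partition of a vertex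
set `X` with at most `k` elements gives a graph of `C` (all fibres of `f` with at least two
elements lie inside `X`). -/
def AdmitsId (C : FG → Prop) (G : FG) (k : ℕ) : Prop :=
  ∃ (H : FG) (f : G.V → H.V) (X : Set G.V), QuotMap G.G H.G f ∧ X.ncard ≤ k ∧
    (∀ a b, f a = f b → a ≠ b → a ∈ X) ∧ C H

/-- the identification distance of `G` to `C`. -/
noncomputable def idNum (C : FG → Prop) (G : FG) : ℕ := sInf {k | AdmitsId C G k}

/-- `H` is obtained from `G` by contracting one edge `u v`. -/
def ContractStep (G H : FG) : Prop :=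
  ∃ (f : G.V → H.V) (u v : G.V), G.G.Adj u v ∧ f u = f v ∧
    (∀ a b, f a = f b → a = b ∨ (a = u ∧ b = v) ∨ (a = v ∧ b = u)) ∧ QuotMap G.G H.G f

/-- `Contracts k G H`: `H` is obtained from `G` by `k` successive edge contractions. -/
inductive Contracts : ℕ → FG → FG → Prop
  | refl (G : FG) : Contracts 0 G G
  | step {k : ℕ} {G H K : FG} : ContractStep G H → Contracts k H K → Contracts (k + 1) G K

/-- some sequence of contractions turns `G` into a graph of `C`. -/
def EcDefined (C : FG → Prop) (G : FG) : Prop := ∃ k K, Contracts k G K ∧ C K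

/-- the contraction distance of `G` to `C`. -/
noncomputable def ec (C : FG → Prop) (G : FG) : ℕ := sInf {k | ∃ K, Contracts k G K ∧ C K}

/-- two disjoint triangles. -/
def twoTriangles : SimpleGraph (Bool × Fin 3) where
  Adj x y := x.1 = y.1 ∧ x.2 ≠ y.2
  symm := ⟨fun _ _ h => ⟨h.1.symm, h.2.symm⟩⟩
  loopless := ⟨fun _ h => h.2 rfl⟩

/-- the class of the graphs without two disjoint cycles. -/
def Cls (G : FG) : Prop := ¬ IsMinor twoTriangles G.G

/-- the union of connected sets along a connected set is connected. -/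
theorem conn_iUnion {W V : Type} {H : SimpleGraph W} {G : SimpleGraph V} {B : W → Set V}
    {D : Set W} (hD : (H.induce D).Connected) (hB : ∀ i ∈ D, (G.induce (B i)).Connected)
    (hadj : ∀ i ∈ D, ∀ j ∈ D, H.Adj i j → ∃ a ∈ B i, ∃ b ∈ B j, G.Adj a b) :
    (G.induce {x | ∃ i ∈ D, x ∈ B i}).Connected := by
  obtain ⟨⟨i0, hi0⟩⟩ := hD.nonempty
  obtain ⟨⟨x0, hx0⟩⟩ := (hB i0 hi0).nonempty
  have hin : ∀ (i : W) (hi : i ∈ D) (x y : V) (hx : x ∈ B i) (hy : y ∈ B i),
      (G.induce {x | ∃ i ∈ D, x ∈ B i}).Reachable ⟨x, i, hi, hx⟩ ⟨y, i, hi, hy⟩ := by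
    intro i hi x y hx hy
    have h1 := (hB i hi).preconnected ⟨x, hx⟩ ⟨y, hy⟩
    have hsub : B i ⊆ {x | ∃ i ∈ D, x ∈ B i} := fun z hz => ⟨i, hi, hz⟩
    exact h1.map (induceHomOfLE _ hsub).toHom
  have key : ∀ (i j : D) (w : (H.induce D).Walk i j) (x y : V) (hx : x ∈ B i.1) (hy : y ∈ B j.1),
      (G.induce {x | ∃ i ∈ D, x ∈ B i}).Reachable ⟨x, i.1, i.2, hx⟩ ⟨y, j.1, j.2, hy⟩ := by
    intro i j w
    induction w with
    | @nil u =>
      intro x y hx hy
      exact hin u.1 u.2 x y hx hy
    | @cons u v z hadj' _ ih =>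
      intro x y hx hy
      obtain ⟨a, ha, b, hb, hab⟩ := hadj u.1 u.2 v.1 v.2 hadj'
      have h1 := hin u.1 u.2 x a hx ha
      have h2 : (G.induce {x | ∃ i ∈ D, x ∈ B i}).Adj ⟨a, u.1, u.2, ha⟩ ⟨b, v.1, v.2, hb⟩ := hab
      exact (h1.trans h2.reachable).trans (ih b y hb hy)
  rw [connected_iff_exists_forall_reachable]
  refine ⟨⟨x0, i0, hi0, hx0⟩, ?_⟩
  rintro ⟨y, j, hj, hy⟩
  obtain ⟨w⟩ := hD.preconnected ⟨i0, hi0⟩ ⟨j, hj⟩
  exact key _ _ w x0 y hx0 hy

theorem IsMinor.trans {U W V : Type} {K : SimpleGraph U} {H : SimpleGraph W} {G : SimpleGraph V}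
    (h1 : IsMinor K H) (h2 : IsMinor H G) : IsMinor K G := by
  obtain ⟨A, hA1, hA2, hA3⟩ := h1
  obtain ⟨B, hB1, hB2, hB3⟩ := h2
  refine ⟨fun i => {x | ∃ w ∈ A i, x ∈ B w}, ?_, ?_, ?_⟩
  · intro i
    exact conn_iUnion (hA1 i) (fun w _ => hB1 w) (fun w _ w' _ h => hB3 w w' h)
  · intro i j hij
    rw [Set.disjoint_left]
    rintro x ⟨w, hw, hx⟩ ⟨w', hw', hx'⟩
    by_cases hww : w = w'
    · subst hww
      exact Set.disjoint_left.1 (hA2 i j hij) hw hw'
    · exact Set.disjoint_left.1 (hB2 w w' hww) hx hx'
  · intro i j hij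
    obtain ⟨w, hw, w', hw', hadj⟩ := hA3 i j hij
    obtain ⟨a, ha, b, hb, hab⟩ := hB3 w w' hadj
    exact ⟨a, ⟨w, hw, ha⟩, b, ⟨w', hw', hb⟩, hab⟩

theorem minorClosed_Cls : MinorClosed Cls := fun _ _ hG hH hK => hG (hK.trans hH)

/-- three disjoint connected sets which are pairwise adjacent do not exist on a line. -/
theorem no_triangle_on_line {V : Type} {G : SimpleGraph V} (π : V → ℤ) {A : Fin 3 → Set V}
    (h1 : ∀ i, (G.induce (A i)).Connected) (h2 : ∀ i j, i ≠ j → Disjoint (A i) (A j))
    (h3 : ∀ i j, i ≠ j → ∃ a ∈ A i, ∃ b ∈ A j, G.Adj a b)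
    (h4 : ∀ i j, ∀ a ∈ A i, ∀ b ∈ A j, π a = π b → a = b)
    (h5 : ∀ i j, ∀ a ∈ A i, ∀ b ∈ A j, G.Adj a b → π b = π a + 1 ∨ π a = π b + 1) : False := by
  have hne : ∀ i, ∃ x, x ∈ A i := fun i => by
    obtain ⟨⟨x, hx⟩⟩ := (h1 i).nonempty
    exact ⟨x, hx⟩
  choose x hx using hne
  have hxne : ∀ i j, i ≠ j → π (x i) ≠ π (x j) := by
    intro i j hij h
    have := h4 i j _ (hx i) _ (hx j) h
    exact Set.disjoint_left.1 (h2 i j hij) (hx i) (this ▸ hx j)
  -- the middle one separates the two others
  have key : ∀ i j k : Fin 3, i ≠ j → j ≠ k → i ≠ k → π (x i) < π (x j) → π (x j) < π (x k) →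
      False := by
    intro i j k hij hjk hik l1 l2
    obtain ⟨a, ha, b, hb, hab⟩ := h3 i k hik
    have hconn : (G.induce (A i ∪ A k)).Connected :=
      connected_induce_union (h1 i).preconnected (h1 k).preconnected ha hb hab
    obtain ⟨y, z, hy, hyA, hz, hzA, hyz⟩ := crossing (A := {w | π w < π (x j)}) hconn
      (Or.inl (hx i)) l1 (Or.inr (hx k)) (not_lt.2 l2.le)
    have hyA' : π y < π (x j) := hyA
    have hzA' : ¬ π z < π (x j) := hzA
    have hcase : π z = π y + 1 ∨ π y = π z + 1 := by
      rcases hy with hy | hy <;> rcases hz with hz | hz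
      · exact h5 i i y hy z hz hyz
      · exact h5 i k y hy z hz hyz
      · exact h5 k i y hy z hz hyz
      · exact h5 k k y hy z hz hyz
    have heq : π z = π (x j) := by omega
    rcases hz with hz | hz
    · have := h4 i j z hz _ (hx j) heq
      exact Set.disjoint_left.1 (h2 i j hij) hz (this ▸ hx j)
    · have := h4 k j z hz _ (hx j) heq
      exact Set.disjoint_left.1 (h2 k j hjk.symm) hz (this ▸ hx j)
  have n01 := hxne 0 1 (by decide)
  have n02 := hxne 0 2 (by decide)
  have n12 := hxne 1 2 (by decide)
  rcases lt_or_gt_of_ne n01 with a | a <;> rcases lt_or_gt_of_ne n02 with b | b <;>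
    rcases lt_or_gt_of_ne n12 with c | c
  · exact key 0 1 2 (by decide) (by decide) (by decide) a c
  · exact key 0 2 1 (by decide) (by decide) (by decide) b c
  · omega
  · exact key 2 0 1 (by decide) (by decide) (by decide) b a
  · exact key 1 0 2 (by decide) (by decide) (by decide) a b
  · omega
  · exact key 1 2 0 (by decide) (by decide) (by decide) c b
  · exact key 2 1 0 (by decide) (by decide) (by decide) c a

/-- successive contractions are described by one map with connected fibres. -/
theorem Contracts.map {k : ℕ} {G K : FG} (h : Contracts k G K) :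
    ∃ f : G.V → K.V, QuotMap G.G K.G f ∧ (∀ x, (G.G.induce (f ⁻¹' {x})).Connected) ∧
      Nat.card G.V = Nat.card K.V + k := by
  induction h with
  | refl G =>
    refine ⟨id, ⟨Function.surjective_id, ?_⟩, ?_, by simp⟩
    · intro x y
      constructor
      · intro hxy
        exact ⟨hxy.ne, x, y, rfl, rfl, hxy⟩
      · rintro ⟨_, a, b, rfl, rfl, hab⟩
        exact hab
    · intro x
      have hs : Subsingleton ((id ⁻¹' {x} : Set G.V) : Type) := by
        constructor
        rintro ⟨a, ha⟩ ⟨b, hb⟩
        exact Subtype.ext (ha.trans hb.symm)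
      have : Nonempty ((id ⁻¹' {x} : Set G.V) : Type) := ⟨⟨x, rfl⟩⟩
      exact ⟨fun a b => by rw [Subsingleton.elim a b]⟩
  | @step k G H K hstep _ ih =>
    obtain ⟨g, ⟨hg1, hg2⟩, hg3, hg4⟩ := ih
    obtain ⟨f, u, v, huv, hfuv, hf, hf1, hf2⟩ := hstep
    have := G.fin
    have := H.fin
    refine ⟨g ∘ f, ⟨hg1.comp hf1, ?_⟩, ?_, ?_⟩
    · intro x y
      rw [hg2]
      constructor
      · rintro ⟨hxy, a, b, rfl, rfl, hab⟩
        obtain ⟨_, c, d, rfl, rfl, hcd⟩ := (hf2 a b).1 hab
        exact ⟨hxy, c, d, rfl, rfl, hcd⟩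
      · rintro ⟨hxy, c, d, rfl, rfl, hcd⟩
        refine ⟨hxy, f c, f d, rfl, rfl, ?_⟩
        rw [hf2]
        exact ⟨fun h => hxy (congrArg g h), c, d, rfl, rfl, hcd⟩
    · intro x
      have h1 := conn_iUnion (G := G.G) (B := fun y => f ⁻¹' {y}) (hg3 x) (by
        intro y _
        obtain ⟨a, rfl⟩ := hf1 y
        by_cases hau : a = u ∨ a = v
        · have : f ⁻¹' {f a} = {u, v} := by
            ext z
            simp only [Set.mem_preimage, Set.mem_singleton_iff, Set.mem_insert_iff]
            constructor
            · intro hz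
              rcases hf z a hz with h | h | h
              · rwa [h]
              · exact Or.inl h.1
              · exact Or.inr h.1
            · intro hz
              have e1 : ∀ w, w = u ∨ w = v → f w = f u := by
                rintro w (h | h)
                · rw [h]
                · rw [h, hfuv]
              rw [e1 z hz, e1 a hau]
          rw [this]
          exact induce_pair_connected_of_adj huv
        · push Not at hau
          have : f ⁻¹' {f a} = {a} := by
            ext z
            simp only [Set.mem_preimage, Set.mem_singleton_iff]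
            constructor
            · intro hz
              rcases hf z a hz with h | h | h
              · exact h
              · exact absurd h.2 hau.2
              · exact absurd h.2 hau.1
            · intro hz
              rw [hz]
          rw [this]
          have hs : Subsingleton (({a} : Set G.V) : Type) := by
            constructor
            rintro ⟨c, hc⟩ ⟨d, hd⟩
            exact Subtype.ext (hc.trans hd.symm)
          have : Nonempty (({a} : Set G.V) : Type) := ⟨⟨a, rfl⟩⟩
          exact ⟨fun a b => by rw [Subsingleton.elim a b]⟩) (by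
        intro y _ z _ hyz
        obtain ⟨_, a, b, ha, hb, hab⟩ := (hf2 y z).1 hyz
        exact ⟨a, ha, b, hb, hab⟩)
      have h2 : {z | ∃ i ∈ g ⁻¹' {x}, z ∈ f ⁻¹' {i}} = (g ∘ f) ⁻¹' {x} := by
        ext z
        simp only [Set.mem_preimage, Set.mem_singleton_iff, Function.comp]
        constructor
        · rintro ⟨i, hi, hz⟩
          rw [hz]; exact hi
        · intro hz
          exact ⟨f z, hz, rfl⟩
      rwa [h2] at h1
    · -- cardinalities
      have hcard : Nat.card G.V = Nat.card H.V + 1 := by
        have e : Nat.card {z : G.V // z ≠ v} = Nat.card H.V := by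
          apply Nat.card_congr
          apply Equiv.ofBijective (fun z : {z : G.V // z ≠ v} => f z.1)
          constructor
          · rintro ⟨a, ha⟩ ⟨b, hb⟩ hab
            rcases hf a b hab with h | h | h
            · exact Subtype.ext h
            · exact absurd h.2 hb
            · exact absurd h.1 ha
          · intro y
            obtain ⟨a, rfl⟩ := hf1 y
            by_cases hav : a = v
            · exact ⟨⟨u, huv.ne⟩, by rw [hav]; exact hfuv⟩
            · exact ⟨⟨a, hav⟩, rfl⟩
        have := Fintype.ofFinite G.V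
        have := Fintype.ofFinite H.V
        classical
        rw [← e, Nat.card_eq_fintype_card, Nat.card_eq_fintype_card,
          Fintype.card_subtype_compl, Fintype.card_subtype_eq]
        have : 0 < Fintype.card G.V := Fintype.card_pos_iff.2 ⟨v⟩
        omega
      rw [hcard, hg4]
      omega

/-- connected graphs can be contracted to one vertex. -/
theorem contract_all (n : ℕ) : ∀ G : FG, G.G.Connected → Nat.card G.V = n + 1 →
    ∃ k K, Contracts k G K ∧ Nat.card K.V = 1 := by
  induction n with
  | zero => exact fun G _ hG => ⟨0, G, Contracts.refl G, hG⟩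
  | succ n ih =>
    intro G hconn hcard
    have := G.fin
    classical
    have := Fintype.ofFinite G.V
    have hnt : Nontrivial G.V := by
      rw [← Fintype.one_lt_card_iff_nontrivial, ← Nat.card_eq_fintype_card]
      omega
    obtain ⟨u⟩ := hconn.nonempty
    obtain ⟨v, huv⟩ := hconn.preconnected.exists_adj_of_nontrivial u
    let W : Type := {x : G.V // x ≠ v}
    let f : G.V → W := fun x => if h : x = v then ⟨u, huv.ne⟩ else ⟨x, h⟩
    have hfv : f v = ⟨u, huv.ne⟩ := by simp [f]
    have hfx : ∀ x (h : x ≠ v), f x = ⟨x, h⟩ := fun x h => by simp [f, h]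
    let H : SimpleGraph W :=
      { Adj := fun x y => x ≠ y ∧ ∃ a b, f a = x ∧ f b = y ∧ G.G.Adj a b
        symm := ⟨by
          rintro x y ⟨h, a, b, ha, hb, hab⟩
          exact ⟨h.symm, b, a, hb, ha, hab.symm⟩⟩
        loopless := ⟨fun x h => h.1 rfl⟩ }
    have hsurj : Function.Surjective f := fun x => ⟨x.1, hfx x.1 x.2⟩
    have hHc : H.Connected := by
      have hreach : ∀ (a b : G.V) (w : G.G.Walk a b), H.Reachable (f a) (f b) := by
        intro a b w
        induction w with
        | nil => exact Reachable.refl _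
        | @cons c d e hcd _ ih2 =>
          refine Reachable.trans ?_ ih2
          by_cases hcdf : f c = f d
          · rw [hcdf]
          · exact Adj.reachable (show H.Adj (f c) (f d) from ⟨hcdf, c, d, rfl, rfl, hcd⟩)
      have : Nonempty W := ⟨f u⟩
      refine ⟨fun x y => ?_⟩
      obtain ⟨a, rfl⟩ := hsurj x
      obtain ⟨b, rfl⟩ := hsurj y
      obtain ⟨w⟩ := hconn.preconnected a b
      exact hreach a b w
    have hWc : Nat.card W = n + 1 := by
      have h1 : Nat.card W = Fintype.card {x : G.V // x ≠ v} := Nat.card_eq_fintype_card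
      rw [h1, Fintype.card_subtype_compl, Fintype.card_subtype_eq, ← Nat.card_eq_fintype_card,
        hcard]
      omega
    obtain ⟨k, K, hk, hK⟩ := ih ⟨W, inferInstance, H⟩ hHc hWc
    refine ⟨k + 1, K, Contracts.step ?_ hk, hK⟩
    refine ⟨f, u, v, huv, ?_, ?_, hsurj, fun x y => Iff.rfl⟩
    · rw [hfv, hfx u huv.ne]
    · intro a b hab
      by_cases ha : a = v
      · by_cases hb : b = v
        · exact Or.inl (ha.trans hb.symm)
        · rw [ha, hfv, hfx b hb] at hab
          have := congrArg Subtype.val hab
          exact Or.inr (Or.inr ⟨ha, this.symm⟩)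
      · by_cases hb : b = v
        · rw [hb, hfv, hfx a ha] at hab
          have := congrArg Subtype.val hab
          exact Or.inr (Or.inl ⟨this, hb⟩)
        · rw [hfx a ha, hfx b hb] at hab
          exact Or.inl (congrArg Subtype.val hab)

/-- the vertices of the example: a path `0, ..., n` and, at each of its two ends (the end `0` for
`false` and the end `n` for `true`), `n` triangles. -/
abbrev Vx (n : ℕ) : Type := Fin (n + 1) ⊕ (Bool × Fin n × Bool)

/-- the centre belonging to a side. -/
def hub (n : ℕ) (s : Bool) : Fin (n + 1) := if s then Fin.last n else 0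

/-- the adjacency relation of the example, in one direction. -/
def Rel (n : ℕ) : Vx n → Vx n → Prop
  | Sum.inl i, Sum.inl j => i.val + 1 = j.val
  | Sum.inl i, Sum.inr x => i = hub n x.1
  | Sum.inr x, Sum.inr y => x.1 = y.1 ∧ x.2.1 = y.2.1 ∧ x.2.2 ≠ y.2.2
  | Sum.inr _, Sum.inl _ => False

/-- the example: two friendship graphs joined by a long path. -/
def Ex (n : ℕ) : SimpleGraph (Vx n) where
  Adj x y := x ≠ y ∧ (Rel n x y ∨ Rel n y x)
  symm := ⟨fun _ _ h => ⟨h.1.symm, h.2.symm⟩⟩
  loopless := ⟨fun _ h => h.1 rfl⟩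

/-- the example as a finite graph. -/
def ExG (n : ℕ) : FG := ⟨Vx n, inferInstance, Ex n⟩

theorem Ex_conn (n : ℕ) : (Ex n).Connected := by
  rw [connected_iff_exists_forall_reachable]
  refine ⟨Sum.inl 0, ?_⟩
  have hpath : ∀ (i : ℕ) (hi : i < n + 1), (Ex n).Reachable (Sum.inl 0) (Sum.inl ⟨i, hi⟩) := by
    intro i
    induction i with
    | zero => intro hi; exact Reachable.refl _
    | succ i ih =>
      intro hi
      refine (ih (by omega)).trans (Adj.reachable ⟨?_, Or.inl ?_⟩)
      · simp
      · simp [Rel]
  rintro (i | ⟨s, i, t⟩)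
  · exact hpath i.1 i.2
  · refine Reachable.trans (v := Sum.inl (hub n s)) ?_ (Adj.reachable ⟨by simp, Or.inl rfl⟩)
    exact hpath _ (hub n s).2

/-- the position on a line of the vertices different from the centres. -/
def pos (n : ℕ) : Vx n → ℤ
  | Sum.inl i => i.val
  | Sum.inr (s, i, t) => n + 1 + 3 * (i.val + n * (if s then 1 else 0)) + (if t then 1 else 0)

theorem pos_inj (n : ℕ) {x y : Vx n} (h : pos n x = pos n y) : x = y := by
  rcases x with i | ⟨s, i, t⟩ <;> rcases y with j | ⟨s', j, t'⟩
  · simp only [pos, Nat.cast_inj] at h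
    rw [Fin.ext h]
  · exfalso
    have h1 := i.2
    have h2 := j.2
    cases s' <;> cases t' <;> simp [pos] at h <;> omega
  · exfalso
    have h1 := i.2
    have h2 := j.2
    cases s <;> cases t <;> simp [pos] at h <;> omega
  · have h1 := i.2
    have h2 := j.2
    cases s <;> cases s' <;> cases t <;> cases t' <;> simp [pos] at h <;>
      first
        | (exfalso; omega)
        | (have h3 : i = j := Fin.ext (by omega); rw [h3])

theorem pos_adj (n : ℕ) {x y : Vx n} (hx : ∀ s, x ≠ Sum.inl (hub n s))
    (hy : ∀ s, y ≠ Sum.inl (hub n s)) (h : (Ex n).Adj x y) :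
    pos n y = pos n x + 1 ∨ pos n x = pos n y + 1 := by
  have key : ∀ x y : Vx n, (∀ s, x ≠ Sum.inl (hub n s)) → (∀ s, y ≠ Sum.inl (hub n s)) →
      Rel n x y → pos n y = pos n x + 1 ∨ pos n x = pos n y + 1 := by
    intro x y hx hy h
    rcases x with i | ⟨s, i, t⟩ <;> rcases y with j | ⟨s', j, t'⟩
    · left
      simp only [Rel] at h
      simp only [pos]
      omega
    · exfalso
      simp only [Rel] at h
      exact hx s' (by rw [h])
    · exact absurd h (by simp [Rel])
    · simp only [Rel] at h
      obtain ⟨rfl, rfl, h3⟩ := h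
      cases t <;> cases t' <;> simp [pos] at h3 ⊢
  rcases h.2 with h | h
  · exact key x y hx hy h
  · exact (key y x hy hx h).symm

theorem admits (n : ℕ) (hn : 1 ≤ n) : AdmitsId Cls (ExG n) 2 := by
  classical
  let v : Vx n := Sum.inl (hub n true)
  let u : Vx n := Sum.inl (hub n false)
  have huv : u ≠ v := by
    intro h
    have h1 : hub n false = hub n true := Sum.inl.inj h
    have h2 := congrArg Fin.val h1
    simp [hub] at h2
    omega
  let W : Type := {x : Vx n // x ≠ v}
  let f : Vx n → W := fun x => if h : x = v then ⟨u, huv⟩ else ⟨x, h⟩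
  have hfv : f v = ⟨u, huv⟩ := by simp [f]
  have hfx : ∀ x (h : x ≠ v), f x = ⟨x, h⟩ := fun x h => by simp [f, h]
  let H : SimpleGraph W :=
    { Adj := fun x y => x ≠ y ∧ ∃ a b, f a = x ∧ f b = y ∧ (Ex n).Adj a b
      symm := ⟨by
        rintro x y ⟨h, a, b, ha, hb, hab⟩
        exact ⟨h.symm, b, a, hb, ha, hab.symm⟩⟩
      loopless := ⟨fun x h => h.1 rfl⟩ }
  refine ⟨⟨W, inferInstance, H⟩, f, {u, v}, ⟨fun x => ⟨x.1, hfx x.1 x.2⟩, fun x y => Iff.rfl⟩,
    ?_, ?_, ?_⟩
  · have : ({u, v} : Set (Vx n)).ncard ≤ 2 :=
      (Set.ncard_insert_le _ _).trans (by rw [Set.ncard_singleton])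
    exact this
  · intro a b hab hne
    by_cases ha : a = v
    · exact Or.inr ha
    · by_cases hb : b = v
      · rw [hb, hfv, hfx a ha] at hab
        exact Or.inl (congrArg Subtype.val hab)
      · rw [hfx a ha, hfx b hb] at hab
        exact absurd (congrArg Subtype.val hab) hne
  · rintro ⟨B, hB1, hB2, hB3⟩
    -- one of the two triples avoids the merged centre
    have hs : ∃ s : Bool, ∀ j : Fin 3, (⟨u, huv⟩ : W) ∉ B (s, j) := by
      by_contra hcon
      push Not at hcon
      obtain ⟨j, hj⟩ := hcon false
      obtain ⟨j', hj'⟩ := hcon true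
      exact Set.disjoint_left.1 (hB2 (false, j) (true, j') (by simp)) hj hj'
    obtain ⟨s, hs⟩ := hs
    have hval : ∀ j, ∀ x ∈ B (s, j), ∀ s', x.1 ≠ Sum.inl (hub n s') := by
      intro j x hx s'
      cases s'
      · intro h
        apply hs j
        have : x = ⟨u, huv⟩ := Subtype.ext h
        rwa [← this]
      · exact x.2
    apply no_triangle_on_line (G := H) (fun x : W => pos n x.1) (A := fun j => B (s, j))
    · intro j
      exact hB1 (s, j)
    · intro i j hij
      exact hB2 _ _ (by simp [hij])
    · intro i j hij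
      exact hB3 (s, i) (s, j) ⟨rfl, hij⟩
    · intro i j a _ b _ hab
      exact Subtype.ext (pos_inj n hab)
    · intro i j a ha b hb hab
      obtain ⟨_, c, d, hc, hd, hcd⟩ := hab
      have e1 : ∀ (x : W) (c : Vx n), (∀ s', x.1 ≠ Sum.inl (hub n s')) → f c = x → c = x.1 := by
        intro x c hx hc
        by_cases hcv : c = v
        · rw [hcv, hfv] at hc
          exact absurd (congrArg Subtype.val hc).symm (hx false)
        · rw [hfx c hcv] at hc
          exact congrArg Subtype.val hc
      rw [e1 a c (hval i a ha) hc, e1 b d (hval j b hb) hd] at hcd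
      exact pos_adj n (hval i a ha) (hval j b hb) hcd

/-- redundant vertices. -/
theorem card_of_redundant {V W : Type} [Finite V] [Finite W] {f : V → W}
    (hf : Function.Surjective f) {m : ℕ} (g : Fin m → V) (hg : Function.Injective g)
    (h : ∀ i, ∃ w, (∀ j, g j ≠ w) ∧ f w = f (g i)) : Nat.card W + m ≤ Nat.card V := by
  classical
  have := Fintype.ofFinite V
  have := Fintype.ofFinite W
  rw [Nat.card_eq_fintype_card, Nat.card_eq_fintype_card]
  have h1 : (Finset.univ : Finset W) ⊆ (Finset.univ \ Finset.univ.image g).image f := by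
    intro y _
    obtain ⟨a, rfl⟩ := hf y
    rw [Finset.mem_image]
    by_cases ha : a ∈ Finset.univ.image g
    · obtain ⟨i, _, rfl⟩ := Finset.mem_image.1 ha
      obtain ⟨w, hw1, hw2⟩ := h i
      refine ⟨w, ?_, hw2⟩
      rw [Finset.mem_sdiff, Finset.mem_image]
      refine ⟨Finset.mem_univ _, ?_⟩
      rintro ⟨j, _, hj⟩
      exact hw1 j hj
    · exact ⟨a, Finset.mem_sdiff.2 ⟨Finset.mem_univ _, ha⟩, rfl⟩
  have h2 := (Finset.card_le_card h1).trans Finset.card_image_le
  rw [Finset.card_univ, Finset.card_sdiff_of_subset (Finset.subset_univ _),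
    Finset.card_image_of_injective _ hg, Finset.card_univ, Finset.card_univ, Fintype.card_fin] at h2
  have h3 : m ≤ Fintype.card V := by
    have := Fintype.card_le_of_injective g hg
    rwa [Fintype.card_fin] at this
  omega

theorem lower (n : ℕ) (hn : 1 ≤ n) {k : ℕ} {K : FG} (h : Contracts k (ExG n) K) (hK : Cls K) :
    n ≤ k := by
  classical
  by_contra hkn
  push Not at hkn
  obtain ⟨f, ⟨hf1, hf2⟩, hf3, hcard⟩ := h.map
  have hfin : Finite K.V := K.fin
  have hfinG : Finite (ExG n).V := (ExG n).fin
  -- the centres are not merged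
  have hne : f (Sum.inl (hub n false)) ≠ f (Sum.inl (hub n true)) := by
    intro heq
    have hD := hf3 (f (Sum.inl (hub n false)))
    have hall : ∀ i : Fin (n + 1), f (Sum.inl i) = f (Sum.inl (hub n false)) := by
      intro i
      by_contra hi
      have hi0 : 0 < i.val := by
        rcases Nat.eq_zero_or_pos i.val with h0 | h0
        · exfalso
          apply hi
          have : i = hub n false := Fin.ext (by simp [hub, h0])
          rw [this]
        · exact h0
      obtain ⟨x, y, hx, hxA, hy, hyA, hxy⟩ := crossing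
        (A := {z : Vx n | (∃ j : Fin (n + 1), z = Sum.inl j ∧ j.val < i.val) ∨
          ∃ w, z = Sum.inr w ∧ w.1 = false}) hD (a := Sum.inl (hub n false))
        (b := Sum.inl (hub n true)) rfl
        (Or.inl ⟨_, rfl, by simpa [hub] using hi0⟩) heq.symm (by
          rintro (⟨j, hj, hj'⟩ | ⟨w, hw, _⟩)
          · have := Sum.inl.inj hj
            rw [← this] at hj'
            simp [hub] at hj'
            have := i.2
            omega
          · exact absurd hw (by simp))
      have hxD : f x = f (Sum.inl (hub n false)) := hx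
      have hyD : f y = f (Sum.inl (hub n false)) := hy
      have hi2 := i.2
      rcases hxA with ⟨j, rfl, hj⟩ | ⟨w, rfl, hw⟩
      · rcases y with j' | w'
        · have hj'i : ¬ j'.val < i.val := fun hh => hyA (Or.inl ⟨j', rfl, hh⟩)
          have hval : j'.val = i.val := by
            rcases hxy.2 with h1 | h1
            · simp only [Rel] at h1
              omega
            · simp only [Rel] at h1
              omega
          have : j' = i := Fin.ext hval
          rw [this] at hyD
          exact hi hyD
        · rcases hxy.2 with h1 | h1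
          · simp only [Rel] at h1
            cases hw' : w'.1
            · exact hyA (Or.inr ⟨w', rfl, hw'⟩)
            · rw [hw'] at h1
              rw [h1] at hj
              simp [hub] at hj
              omega
          · exact absurd h1 (by simp [Rel])
      · rcases y with j' | w'
        · have hj'i : ¬ j'.val < i.val := fun hh => hyA (Or.inl ⟨j', rfl, hh⟩)
          rcases hxy.2 with h1 | h1
          · exact absurd h1 (by simp [Rel])
          · simp only [Rel] at h1
            rw [hw] at h1
            rw [h1] at hj'i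
            have h2 : (hub n false).val = 0 := by simp [hub]
            omega
        · apply hyA
          right
          refine ⟨w', rfl, ?_⟩
          rcases hxy.2 with h1 | h1
          · simp only [Rel] at h1
            rw [← h1.1, hw]
          · simp only [Rel] at h1
            rw [h1.1, hw]
    have hred := card_of_redundant (V := (ExG n).V) hf1
      (fun i : Fin n => (Sum.inl i.succ : Vx n))
      (fun i j hij => Fin.succ_injective _ (Sum.inl.inj hij)) (by
        intro i
        refine ⟨Sum.inl 0, ?_, ?_⟩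
        · intro j hj
          have := Sum.inl.inj hj
          exact absurd this (Fin.succ_ne_zero j)
        · exact (hall _).trans (hall _).symm)
    omega
  -- an intact triangle on each side
  have hint : ∀ s : Bool, ∃ i : Fin n, ∀ t : Bool, ∀ x : Vx n,
      f x = f (Sum.inr (s, i, t)) → x = Sum.inr (s, i, t) := by
    intro s
    by_contra hcon
    push Not at hcon
    choose t x hx1 hx2 using hcon
    have hred := card_of_redundant (V := (ExG n).V) hf1
      (fun i : Fin n => (Sum.inr (s, i, t i) : Vx n))
      (fun i j hij => (Prod.mk.inj (Prod.mk.inj (Sum.inr.inj hij)).2).1) (by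
        intro i
        have hD := hf3 (f (Sum.inr (s, i, t i)))
        obtain ⟨a, b, ha, haA, hb, hbA, hab⟩ := crossing (A := {(Sum.inr (s, i, t i) : Vx n)}) hD
          (a := Sum.inr (s, i, t i)) (b := x i) rfl rfl (hx1 i) (hx2 i)
        refine ⟨b, ?_, hb⟩
        intro j hj
        rw [Set.mem_singleton_iff] at haA
        rw [haA, ← hj] at hab
        have h1 : i = j := by
          rcases hab.2 with h1 | h1
          · exact h1.2.1
          · exact h1.2.1.symm
        apply hbA
        rw [Set.mem_singleton_iff, ← hj, h1])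
    omega
  choose i hi using hint
  -- two disjoint triangles
  let g : Bool × Fin 3 → Vx n := fun x =>
    if x.2 = 0 then Sum.inl (hub n x.1) else
      if x.2 = 1 then Sum.inr (x.1, i x.1, false) else Sum.inr (x.1, i x.1, true)
  have hg0 : ∀ s, g (s, 0) = Sum.inl (hub n s) := fun s => by simp [g]
  have hg1 : ∀ s, g (s, 1) = Sum.inr (s, i s, false) := fun s => by simp [g]
  have hg2 : ∀ s, g (s, 2) = Sum.inr (s, i s, true) := fun s => by simp [g]
  have hj : ∀ j : Fin 3, j = 0 ∨ j = 1 ∨ j = 2 := by decide
  have hinj : Function.Injective (fun x => f (g x)) := by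
    have aux : ∀ s (x : Bool × Fin 3), (f (g (s, 1)) = f (g x) → x = (s, 1)) ∧
        (f (g (s, 2)) = f (g x) → x = (s, 2)) := by
      rintro s ⟨s', j⟩
      constructor
      · intro h
        rw [hg1] at h
        have h2 := hi s false _ h.symm
        rcases hj j with rfl | rfl | rfl
        · rw [hg0] at h2
          exact absurd h2 (by simp)
        · rw [hg1] at h2
          have := (Prod.mk.inj (Sum.inr.inj h2)).1
          rw [this]
        · rw [hg2] at h2
          have := (Prod.mk.inj (Prod.mk.inj (Sum.inr.inj h2)).2).2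
          exact absurd this (by simp)
      · intro h
        rw [hg2] at h
        have h2 := hi s true _ h.symm
        rcases hj j with rfl | rfl | rfl
        · rw [hg0] at h2
          exact absurd h2 (by simp)
        · rw [hg1] at h2
          have := (Prod.mk.inj (Prod.mk.inj (Sum.inr.inj h2)).2).2
          exact absurd this (by simp)
        · rw [hg2] at h2
          have := (Prod.mk.inj (Sum.inr.inj h2)).1
          rw [this]
    rintro ⟨s, j⟩ ⟨s', j'⟩ h
    simp only at h
    rcases hj j with rfl | rfl | rfl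
    · rcases hj j' with rfl | rfl | rfl
      · rw [hg0, hg0] at h
        cases s <;> cases s'
        · rfl
        · exact absurd h hne
        · exact absurd h.symm hne
        · rfl
      · exact (aux s' _).1 h.symm
      · exact (aux s' _).2 h.symm
    · exact ((aux s _).1 h).symm
    · exact ((aux s _).2 h).symm
  have hgadj : ∀ s (j j' : Fin 3), j ≠ j' → (Ex n).Adj (g (s, j)) (g (s, j')) := by
    intro s j j' hjj
    rcases hj j with rfl | rfl | rfl <;> rcases hj j' with rfl | rfl | rfl
    · exact absurd rfl hjj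
    · rw [hg0, hg1]
      exact ⟨by simp, Or.inl rfl⟩
    · rw [hg0, hg2]
      exact ⟨by simp, Or.inl rfl⟩
    · rw [hg0, hg1]
      exact ⟨by simp, Or.inr rfl⟩
    · exact absurd rfl hjj
    · rw [hg1, hg2]
      exact ⟨by simp, Or.inl ⟨rfl, rfl, by simp⟩⟩
    · rw [hg0, hg2]
      exact ⟨by simp, Or.inr rfl⟩
    · rw [hg1, hg2]
      exact ⟨by simp, Or.inl ⟨rfl, rfl, by simp⟩⟩
    · exact absurd rfl hjj
  apply hK
  refine ⟨fun x => {f (g x)}, ?_, ?_, ?_⟩
  · intro x
    have hs : Subsingleton (({f (g x)} : Set K.V) : Type) := by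
      constructor
      rintro ⟨a, ha⟩ ⟨b, hb⟩
      exact Subtype.ext (ha.trans hb.symm)
    have : Nonempty (({f (g x)} : Set K.V) : Type) := ⟨⟨_, rfl⟩⟩
    exact ⟨fun a b => by rw [Subsingleton.elim a b]⟩
  · intro x y hxy
    rw [Set.disjoint_singleton]
    exact fun h => hxy (hinj h)
  · rintro ⟨s, j⟩ ⟨s', j'⟩ ⟨h1, h2⟩
    simp only at h1 h2
    subst h1
    refine ⟨_, rfl, _, rfl, ?_⟩
    rw [hf2]
    exact ⟨fun h => h2 (Prod.mk.inj (hinj h)).2, _, _, rfl, rfl, hgadj s j j' h2⟩

theorem cls_one {K : FG} (h : Nat.card K.V = 1) : Cls K := by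
  rintro ⟨B, hB1, hB2, _⟩
  have := (Nat.card_eq_one_iff_unique.1 h).1
  obtain ⟨⟨x, hx⟩⟩ := (hB1 (false, 0)).nonempty
  obtain ⟨⟨y, hy⟩⟩ := (hB1 (true, 0)).nonempty
  have hxy : x = y := Subsingleton.elim x y
  exact Set.disjoint_left.1 (hB2 (false, 0) (true, 0) (by simp)) hx (hxy ▸ hy)

theorem ecDefined (n : ℕ) : EcDefined Cls (ExG n) := by
  obtain ⟨m, hm⟩ : ∃ m, Nat.card (ExG n).V = m + 1 := by
    have : Finite (ExG n).V := (ExG n).fin
    have : Nonempty (ExG n).V := ⟨(Sum.inl 0 : Vx n)⟩
    have := Nat.card_pos (α := (ExG n).V)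
    exact ⟨Nat.card (ExG n).V - 1, by omega⟩
  obtain ⟨k, K, h1, h2⟩ := contract_all m (ExG n) (Ex_conn n) hm
  exact ⟨k, K, h1, cls_one h2⟩

/-- The class of the graphs without two disjoint cycles is minor-closed, and for every `n ≥ 1` some
graph of identification distance at most `2` to the class has (finite) contraction
distance at least `n`. Hence no function bounds the contraction distance in terms of the
identification distance. -/
theorem result : MinorClosed Cls ∧
    (∀ n : ℕ, 1 ≤ n → ∃ G : FG, EcDefined Cls G ∧ AdmitsId Cls G 2 ∧ idNum Cls G ≤ 2 ∧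
      n ≤ ec Cls G) ∧
    ¬ ∃ f : ℕ → ℕ, ∀ G : FG, EcDefined Cls G → ec Cls G ≤ f (idNum Cls G) := by
  have key : ∀ n : ℕ, 1 ≤ n → ∃ G : FG, EcDefined Cls G ∧ AdmitsId Cls G 2 ∧ idNum Cls G ≤ 2 ∧
      n ≤ ec Cls G := by
    intro n hn
    refine ⟨ExG n, ecDefined n, admits n hn, Nat.sInf_le (admits n hn), ?_⟩
    apply le_csInf
    · obtain ⟨k, K, h1, h2⟩ := ecDefined n
      exact ⟨k, K, h1, h2⟩
    · rintro k ⟨K, h1, h2⟩
      exact lower n hn h1 h2
  refine ⟨minorClosed_Cls, key, ?_⟩
  rintro ⟨f, hf⟩
  obtain ⟨G, h1, _, h2, h3⟩ := key (f 0 + f 1 + f 2 + 1) (by omega)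
  have h4 := hf G h1
  have h5 : f (idNum Cls G) ≤ f 0 + f 1 + f 2 := by
    have : idNum Cls G = 0 ∨ idNum Cls G = 1 ∨ idNum Cls G = 2 := by omega
    rcases this with h | h | h <;> rw [h] <;> omega
  omega

end Pool.Agent.Results.MP_4c2ece_co.IdVersusContraction
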